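import Pool.Agent.Lib_MP_f1937f_jc.MainW

/-!
# MP_f1937f_nt, Q1: the complete Chebotarev information in all torsion fields, jointly with the Sato-Tate distribution, is
# independent of the Lang-Trotter asymptotics

See the claim file `claims/MP_f1937f_nt/ChebotarevIndependence.md`.
-/

set_option autoImplicit false

namespace Pool.Agent.Results.MP_f1937f_nt.ChebotarevIndependence

open Finset

/-- `G(m)`: the elements of `GL₂(ℤ/m)` which reduce into `G` modulo `M` -/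
def preim (M m : ℕ) (h : M ∣ m) (G : Subgroup (GL (Fin 2) (ZMod M))) : Subgroup (GL (Fin 2) (ZMod m)) :=
  G.comap (Matrix.GeneralLinearGroup.map (ZMod.castHom h (ZMod M)))

/-- the conjugacy class of `g` in the group `H` -/
def cls {m : ℕ} (H : Subgroup (GL (Fin 2) (ZMod m))) (g : GL (Fin 2) (ZMod m)) : Set (GL (Fin 2) (ZMod m)) :=
  {g' | ∃ γ ∈ H, g' = γ * g * γ⁻¹}

/-- the integer matrix `A` modulo `m` is an element of `S` -/
def InSet {m : ℕ} (A : Matrix (Fin 2) (Fin 2) ℤ) (S : Set (GL (Fin 2) (ZMod m))) : Prop :=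
  ∃ g ∈ S, g.val = A.map (Int.cast : ℤ → ZMod m)

/-- `g` is a scalar matrix modulo the divisor `s` of `m` -/
def ScalarMod {m : ℕ} (s : ℕ) (h : s ∣ m) (g : GL (Fin 2) (ZMod m)) : Prop :=
  ∃ c : ZMod s, g.val.map (ZMod.castHom h (ZMod s)) = !![c, 0; 0, c]

/-- the proportion of the class of `g` among the elements of `H` with the determinant of `g` -/
noncomputable def density {m : ℕ} (H : Subgroup (GL (Fin 2) (ZMod m))) (g : GL (Fin 2) (ZMod m)) : ℝ :=
  (Nat.card (cls H g) : ℝ) / (Nat.card {g' : GL (Fin 2) (ZMod m) // g' ∈ H ∧ g'.val.det = g.val.det} : ℝ)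

/-- The integer matrices `F p` (`p` prime) have determinant `p`, a trace in the Hasse interval, and lie in `G` modulo `M` for all
large `p`. -/
def Frobenius (M : ℕ) (G : Subgroup (GL (Fin 2) (ZMod M))) (F : ℕ → Matrix (Fin 2) (Fin 2) ℤ) : Prop :=
  (∀ p : ℕ, p.Prime → (F p).det = p ∧ (F p).trace ^ 2 ≤ 4 * p) ∧
  (∃ p₀ : ℕ, ∀ p : ℕ, p.Prime → p₀ ≤ p → InSet (F p) (G : Set (GL (Fin 2) (ZMod M))))

open Classical in
/-- The matrices `F p` have the Chebotarev information `J(r)`, relative to the function `w` on the primes, for all conjugacy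
classes of all `G(m)`. -/
def Info (M : ℕ) (G : Subgroup (GL (Fin 2) (ZMod M))) (F : ℕ → Matrix (Fin 2) (Fin 2) ℤ) (w : ℕ → ℝ) (r : ℝ) : Prop :=
  ∃ C : ℝ, ∀ (m : ℕ) (h : M ∣ m), 0 < m → ∀ (s : ℕ) (hs : s ∣ m), ∀ g ∈ preim M m h G, ScalarMod s hs g → ∀ k x : ℕ, 2 ≤ x →
    |∑ p ∈ (range (x + 1)).filter (fun p : ℕ => p.Prime ∧ InSet (F p) (cls (preim M m h G) g)),
          w p * (Polynomial.Chebyshev.U ℝ k).eval (((F p).trace : ℝ) / (2 * √(p : ℝ))) -
        (if k = 0 then density (preim M m h G) g else 0) *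
          ∑ p ∈ (range (x + 1)).filter (fun p : ℕ => p.Prime ∧ (p : ZMod m) = g.val.det), w p| ≤
      C * ((m : ℝ) / s) * (k + 1) * √(x : ℝ) * Real.log (m * (k + 2) * x) ^ r

/-- `b` is allowed for `p`: there is an integer matrix of determinant `p` and trace `b` which lies in `G` modulo `M` -/
def Allowed (M : ℕ) (G : Subgroup (GL (Fin 2) (ZMod M))) (p : ℕ) (b : ℤ) : Prop :=
  ∃ A : Matrix (Fin 2) (Fin 2) ℤ, A.det = p ∧ A.trace = b ∧ InSet A (G : Set (GL (Fin 2) (ZMod M)))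

open Classical in
theorem result (M : ℕ) (hM : 0 < M) (G : Subgroup (GL (Fin 2) (ZMod M)))
    (hG : ∀ d : (ZMod M)ˣ, ∃ g ∈ G, g.val.det = (d : ZMod M)) :
    (∀ (A : Set ℤ) (c : ℤ → ℝ) (w : ℕ → ℕ → ℝ), (∀ b, 0 ≤ c b) → (∀ j p, |w j p| ≤ 1) →
      ∃ F : ℕ → Matrix (Fin 2) (Fin 2) ℤ, Frobenius M G F ∧ Info M G F (fun _ => 1) 1 ∧ (∀ j, Info M G F (w j) 1) ∧
      (∀ b : ℤ, b ∉ A → ∃ C : ℝ, ∀ x : ℕ,
        |(((range (x + 1)).filter (fun p => p.Prime ∧ (F p).trace = b)).card : ℝ) -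
          c b * ∑ p ∈ (range (x + 1)).filter (fun p => p.Prime ∧ Allowed M G p b), 1 / (2 * √(p : ℝ))| ≤ C) ∧
      (∀ b : ℤ, b ∈ A → (∃ p : ℕ, Allowed M G p b) → ∀ ε : ℝ, 0 < ε → ∃ x₀ : ℕ, ∀ x : ℕ, x₀ ≤ x →
        (x : ℝ) ^ (3 / 4 - ε) ≤ (((range (x + 1)).filter (fun p => p.Prime ∧ (F p).trace = b)).card : ℝ))) ∧
    (∀ (F : ℕ → Matrix (Fin 2) (Fin 2) ℤ) (r : ℝ), 0 ≤ r → Frobenius M G F → Info M G F (fun _ => 1) r →
      ∀ b : ℤ, ∃ C : ℝ, ∀ x : ℕ, 3 ≤ x →
      (((range (x + 1)).filter (fun p => p.Prime ∧ (F p).trace = b)).card : ℝ) ≤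
        C * (x : ℝ) ^ (3 / 4 : ℝ) * Real.log x ^ ((r - 1) / 2)) := by
  have hfilt : ∀ (x : ℕ) (P : ℕ → Prop) [DecidablePred P],
      (range (x + 1)).filter (fun p => p.Prime ∧ P p) = ((range (x + 1)).filter Nat.Prime).filter P := by
    intro x P _
    rw [filter_filter]
  have hcjS : ∀ (m : ℕ) (h : M ∣ m) (g : GL (Fin 2) (ZMod m)) (B : Matrix (Fin 2) (Fin 2) (ZMod m)),
      (∃ g' ∈ cls (preim M m h G) g, g'.val = B) ↔ JC.CjG M m h G g.val B := by
    intro m h g B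
    unfold JC.CjG cls preim
    constructor
    · rintro ⟨g', ⟨γ, hγ, rfl⟩, rfl⟩
      refine ⟨γ, hγ, ?_⟩
      have e1 : (γ * g * γ⁻¹) * γ = γ * g := by group
      have e2 := congrArg Units.val e1
      rw [Units.val_mul, Units.val_mul γ g] at e2
      exact e2.symm
    · rintro ⟨γ, hγ, e⟩
      refine ⟨γ * g * γ⁻¹, ⟨γ, hγ, rfl⟩, ?_⟩
      rw [Units.val_mul, Units.val_mul, e, mul_assoc, ← Units.val_mul, mul_inv_cancel, Units.val_one, mul_one]
  have hcj : ∀ (m : ℕ) (h : M ∣ m) (g : GL (Fin 2) (ZMod m)) (B : Matrix (Fin 2) (Fin 2) ℤ),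
      InSet B (cls (preim M m h G) g) ↔ JC.CjG M m h G g.val (JC.rd m B) := fun m h g B => hcjS m h g (JC.rd m B)
  have hcls : ∀ (m : ℕ) (h : M ∣ m) (g g' : GL (Fin 2) (ZMod m)),
      g' ∈ cls (preim M m h G) g ↔ JC.CjG M m h G g.val g'.val := by
    intro m h g g'
    rw [← hcjS m h g g'.val]
    constructor
    · intro h1
      exact ⟨g', h1, rfl⟩
    · rintro ⟨g'', h1, h2⟩
      rwa [← Units.ext h2]
  have hin : ∀ B : Matrix (Fin 2) (Fin 2) ℤ, InSet B (G : Set (GL (Fin 2) (ZMod M))) ↔ JC.InG M G (JC.rd M B) :=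
    fun B => Iff.rfl
  have hal : ∀ (p : ℕ) (b : ℤ), JC.Al M G p b ↔ Allowed M G p b := fun p b => Iff.rfl
  have hsc : ∀ (m s : ℕ) (hs : s ∣ m) (g : GL (Fin 2) (ZMod m)), ScalarMod s hs g ↔ JC.ScM m s hs g.val := by
    intro m s hs g
    unfold ScalarMod JC.ScM
    constructor
    · rintro ⟨c, hc⟩
      have h00 := congrFun (congrFun hc 0) 0
      have h01 := congrFun (congrFun hc 0) 1
      have h10 := congrFun (congrFun hc 1) 0
      have h11 := congrFun (congrFun hc 1) 1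
      simp only [Matrix.map_apply, Matrix.of_apply, Matrix.cons_val', Matrix.cons_val_zero, Matrix.cons_val_one,
        Matrix.cons_val_fin_one] at h00 h01 h10 h11
      refine ⟨h01, h10, ?_⟩
      rw [map_sub, h00, h11, sub_self]
    · rintro ⟨h01, h10, h11⟩
      refine ⟨ZMod.castHom hs (ZMod s) (g.val 0 0), ?_⟩
      rw [map_sub, sub_eq_zero] at h11
      ext i j
      fin_cases i <;> fin_cases j
      · rfl
      · exact h01
      · exact h10
      · exact h11.symm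
  have hdens : ∀ (m : ℕ) (h : M ∣ m) (g : GL (Fin 2) (ZMod m)), density (preim M m h G) g = JC.cdens M m h G g := by
    intro m h g
    unfold density JC.cdens
    have e1 : Nat.card (cls (preim M m h G) g) = Nat.card {g' : GL (Fin 2) (ZMod m) // JC.CjG M m h G g.val g'.val} :=
      Nat.card_congr (Equiv.subtypeEquivRight fun g' => hcls m h g g')
    rw [e1]
    rfl
  have hfrob : ∀ F : ℕ → Matrix (Fin 2) (Fin 2) ℤ, Frobenius M G F ↔
      ((∀ p : ℕ, p.Prime → (F p).det = p ∧ (F p).trace ∈ TB.V p) ∧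
        (∃ p₀ : ℕ, ∀ p : ℕ, p.Prime → p₀ ≤ p → JC.InG M G (JC.rd M (F p)))) := by
    intro F
    unfold Frobenius
    exact and_congr (forall_congr' fun p => by rw [JC.mem_V]) Iff.rfl
  have hinfo : ∀ (F : ℕ → Matrix (Fin 2) (Fin 2) ℤ) (w : ℕ → ℝ) (r : ℝ), Info M G F w r ↔ JC.InfoW M G F w r := by
    intro F w r
    unfold Info JC.InfoW
    refine exists_congr fun C =>
      forall_congr' fun m => forall_congr' fun h => forall_congr' fun hm => forall_congr' fun s => forall_congr' fun hs =>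
      forall_congr' fun g => forall_congr' fun hg => ?_
    rw [hsc m s hs g, hdens m h g]
    refine forall_congr' fun hsc' => forall_congr' fun k => forall_congr' fun x => forall_congr' fun hx => ?_
    simp only [hcj]
    rw [hfilt, hfilt]
    rfl
  refine ⟨fun A c w hc hw => ?_, fun F r hr hF hI b => ?_⟩
  · obtain ⟨F, h1, h2, h3, h4, h5⟩ := JC.part_oneW M hM G hG A c hc (fun j => if j = 0 then fun _ => 1 else w (j - 1))
      (fun j p => by
        rcases Nat.eq_zero_or_pos j with h | h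
        · simp [h]
        · simp only [if_neg h.ne']
          exact hw _ _)
    refine ⟨F, (hfrob F).2 ⟨h1, h3⟩, (hinfo F _ 1).2 (h2 0), fun j => (hinfo F _ 1).2 ?_, fun b hb => ?_, fun b hb hp ε hε => ?_⟩
    · have h6 := h2 (j + 1)
      simp only [Nat.add_eq_zero_iff, one_ne_zero, and_false, if_false, Nat.add_sub_cancel] at h6
      exact h6
    · obtain ⟨C, hC⟩ := h4 b hb
      refine ⟨C, fun x => ?_⟩
      have h6 := hC x
      simp only [hal] at h6
      rw [hfilt, hfilt]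
      exact h6
    · obtain ⟨p, hp⟩ := hp
      obtain ⟨x₀, h6⟩ := h5 b hb ⟨p, (hal p b).2 hp⟩ ε hε
      refine ⟨x₀, fun x hx => ?_⟩
      rw [hfilt]
      exact h6 x hx
  · obtain ⟨h1, h2⟩ := (hfrob F).1 hF
    obtain ⟨C, h4⟩ := JC.part_twoW M hM G hG F r hr (fun p hp => (h1 p hp).2) h2 ((hinfo F _ r).1 hI) b
    refine ⟨C, fun x hx => ?_⟩
    rw [hfilt]
    exact h4 x hx

end Pool.Agent.Results.MP_f1937f_nt.ChebotarevIndependence
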