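import Pool.Agent.Lib_MP_f1937f_nt.KGap

/-!
# MP_f1937f_nt: a dichotomy for the number of supersingular primes

For every elliptic curve over `ℚ` without complex multiplication and every `ε > 0`, for all large `x` the number `N(x)` of the
primes `p ≤ x` with `a_p = 0` is at least `(log x)^(1-ε)`, unless `N(y) ≥ y^(1/2-ε)` for some `y` between
`exp(c log log x / (log log log x)²)` and `(log x)²`. It follows that the exceptional `x` are rare: they lie in intervals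
`[x_i, X_i]` with `log log X_i ≤ C log log x_i (log log log x_i)²` and `log log x_(i+1) ≥ (log x_i) / 2`.
-/

namespace Pool.Agent.Results.MP_f1937f_nt.SupersingularDichotomy

open Real in
/-- Let `W` be an integral Weierstrass equation of an elliptic curve `E/ℚ` (`Δ ≠ 0`) without complex
multiplication: every lattice `Λ ⊆ ℂ` with `j(Λ) = j(E)` has only the rational integers as multipliers. Let `N(x)` be the
number of the primes `p ≤ x` not dividing `Δ` with `a_p(E) = 0`, i.e. such that the reduction has exactly `p` affine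
points. For every `ε > 0` there are `c, C > 0` such that for all large `x` either `N(x) ≥ (log x)^(1-ε)`, or
`N(y) ≥ y^(1/2-ε)` for some `y` with `exp(c log log x / (log log log x)²) ≤ y ≤ (log x)²`; and if `x ≤ x'` are large,
`N(x) < (log x)^(1-ε)` and `N(x') < (log x')^(1-ε)`, then `log log x' ≤ C log log x (log log log x)²` or
`log log x' ≥ (log x) / 2`. -/
theorem result (W : WeierstrassCurve ℤ) (hΔ : W.Δ ≠ 0)
    (hCM : ∀ Λ : PeriodPair,
      (W.c₄ : ℂ) ^ 3 * (Λ.g₂ ^ 3 - 27 * Λ.g₃ ^ 2) = 1728 * Λ.g₂ ^ 3 * (W.Δ : ℂ) →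
        ∀ α : ℂ, (∀ z ∈ Λ.lattice, α * z ∈ Λ.lattice) → ∃ k : ℤ, α = k)
    (N : ℝ → ℕ)
    (hN : ∀ x : ℝ, N x =
      ((Finset.range (⌊x⌋₊ + 1)).filter fun p : ℕ => p.Prime ∧ ¬ (p : ℤ) ∣ W.Δ ∧
        ((Finset.range p ×ˢ Finset.range p).filter (fun q : ℕ × ℕ =>
          (q.2 : ZMod p) ^ 2 + (W.a₁ : ZMod p) * (q.1 : ZMod p) * (q.2 : ZMod p)
            + (W.a₃ : ZMod p) * (q.2 : ZMod p)
          = (q.1 : ZMod p) ^ 3 + (W.a₂ : ZMod p) * (q.1 : ZMod p) ^ 2
            + (W.a₄ : ZMod p) * (q.1 : ZMod p) + (W.a₆ : ZMod p))).card = p).card)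
    (ε : ℝ) (hε : 0 < ε) :
    ∃ c C : ℝ, 0 < c ∧ 0 < C ∧ ∃ x₀ : ℝ,
      (∀ x : ℝ, x₀ ≤ x → log x ^ (1 - ε) ≤ (N x : ℝ) ∨
        ∃ y : ℝ, exp (c * log (log x) / (log (log (log x))) ^ 2) ≤ y ∧ y ≤ log x ^ 2 ∧
          y ^ (1 / 2 - ε) ≤ (N y : ℝ)) ∧
      ∀ x x' : ℝ, x₀ ≤ x → x ≤ x' → (N x : ℝ) < log x ^ (1 - ε) → (N x' : ℝ) < log x' ^ (1 - ε) →
        log (log x') ≤ C * log (log x) * (log (log (log x))) ^ 2 ∨ log x / 2 ≤ log (log x') := by
  obtain ⟨c, hc, x₁, h⟩ := LT.k_main2 W hΔ hCM hε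
  obtain ⟨C, hC, x₂, h'⟩ := LT.k_gap W hΔ hCM hε
  have hN' : ∀ x : ℝ, N x = (LT.SS W ⌊x⌋₊).card := fun x => hN x
  refine ⟨c, C, hc, hC, max x₁ x₂, fun x hx => ?_, fun x x' hx hxx hb hb' => ?_⟩
  · rcases h x ((le_max_left _ _).trans hx) with h1 | ⟨y, h1, h2, h3⟩
    · left
      rw [hN']
      exact h1
    · right
      refine ⟨y, h1, h2, ?_⟩
      rw [hN', Nat.floor_natCast]
      exact h3
  · rw [hN'] at hb hb'
    exact h' x x' ((le_max_right _ _).trans hx) hxx hb hb'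

end Pool.Agent.Results.MP_f1937f_nt.SupersingularDichotomy
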