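import Pool.Agent.Lib_MP_f1937f_r8.Main

/-!
# MP_f1937f_nt: many supersingular primes with prescribed residue conditions

For every elliptic curve over `ℚ` without complex multiplication and every `D`, the number of the primes `p ≤ x` with
`a_p = 0` and with `(d / p) = sgn d` for all integers `0 < |d| ≤ D` is at least
`exp (c log log x / (log log log x)²)` for all large `x`.
-/

namespace Pool.Agent.Results.MP_f1937f_nt.SupersingularResidues

open Real in
/-- Let `W` be an integral Weierstrass equation of an elliptic curve `E/ℚ` (`Δ ≠ 0`) without complex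
multiplication: every lattice `Λ ⊆ ℂ` with `j(Λ) = j(E)` has only the rational integers as multipliers. Let `D` be a
natural number and let `N(x)` be the number of the primes `p ≤ x` not dividing `Δ` with `a_p(E) = 0`, i.e. such that the
reduction has exactly `p` affine points, and with `(d / p) = 1` for the integers `0 < d ≤ D` and `(d / p) = -1` for the
integers `-D ≤ d < 0`. Then `N(x) ≥ exp (c log log x / (log log log x)²)` for all large `x`, with some `c > 0`. -/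
theorem result (W : WeierstrassCurve ℤ) (hΔ : W.Δ ≠ 0)
    (hCM : ∀ Λ : PeriodPair,
      (W.c₄ : ℂ) ^ 3 * (Λ.g₂ ^ 3 - 27 * Λ.g₃ ^ 2) = 1728 * Λ.g₂ ^ 3 * (W.Δ : ℂ) →
        ∀ α : ℂ, (∀ z ∈ Λ.lattice, α * z ∈ Λ.lattice) → ∃ k : ℤ, α = k)
    (D : ℕ) (N : ℝ → ℕ)
    (hN : ∀ x : ℝ, N x =
      Set.ncard {p : ℕ | (p : ℝ) ≤ x ∧ p.Prime ∧ ¬ (p : ℤ) ∣ W.Δ ∧
        ((Finset.range p ×ˢ Finset.range p).filter (fun q : ℕ × ℕ =>
          (q.2 : ZMod p) ^ 2 + (W.a₁ : ZMod p) * (q.1 : ZMod p) * (q.2 : ZMod p)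
            + (W.a₃ : ZMod p) * (q.2 : ZMod p)
          = (q.1 : ZMod p) ^ 3 + (W.a₂ : ZMod p) * (q.1 : ZMod p) ^ 2
            + (W.a₄ : ZMod p) * (q.1 : ZMod p) + (W.a₆ : ZMod p))).card = p ∧
        ∀ d : ℤ, d ≠ 0 → d.natAbs ≤ D → jacobiSym d p = Int.sign d}) :
    ∃ c : ℝ, 0 < c ∧ ∃ x₀ : ℝ, ∀ x : ℝ, x₀ ≤ x →
      exp (c * log (log x) / (log (log (log x))) ^ 2) ≤ (N x : ℝ) := by
  obtain ⟨c, hc, x₀, h⟩ := LT.R8.main_eight W hΔ hCM D
  refine ⟨c, hc, max x₀ 0, fun x hx => ?_⟩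
  have hx0 : 0 ≤ x := (le_max_right _ _).trans hx
  have hN' : N x = (LT.R8.SSD W D ⌊x⌋₊).card := by
    rw [hN x, ← Set.ncard_coe_finset]
    congr 1
    ext p
    rw [Set.mem_ofPred_eq, Finset.mem_coe, LT.R8.mem_SSD, Nat.le_floor_iff hx0]
    rfl
  rw [hN']
  exact h x ((le_max_left _ _).trans hx)

end Pool.Agent.Results.MP_f1937f_nt.SupersingularResidues
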