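import Pool.Agent.Lib_MP_f1937f_un.Main

/-!
# MP_f1937f_nt: supersingular primes, uniformly in the curve

There are absolute constants `c, C > 0` such that for every elliptic curve over `ℚ` without complex multiplication, with
`j`-invariant `j` of height at most `H`, `|j| ≤ J`, `|j - 1728| ≥ 1 / D`, and with at most `D` primes `p = 2 mod 3` which divide the
discriminant and at which `j` is integral, the number of the supersingular primes `p ≤ H^z` is at least
`exp (c log z / (log log z)²)` for all `z ≥ (log J)^C D^(C (log log D)²)`.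
-/

namespace Pool.Agent.Results.MP_f1937f_nt.UniformSupersingular

open Real in
/-- There are absolute constants `c, C > 0` with the following property. Let `W` be an integral Weierstrass equation of an
elliptic curve `E/ℚ` (`Δ ≠ 0`) without complex multiplication: every lattice `Λ ⊆ ℂ` with `j(Λ) = j(E)` has only the
rational integers as multipliers. Let `N(x)` be the number of the primes `p ≤ x` not dividing `Δ` with `a_p(E) = 0`, i.e. such
that the reduction has exactly `p` affine points. Let `j = c₄³ / Δ` be the `j`-invariant and let `H ≥ 3`, `J ≥ 3`, `D ≥ 16` be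
real numbers such that the numerator and the denominator of `j` are at most `H` in absolute value, `|j| ≤ J`,
`|j - 1728| ≥ 1 / D`, and such that at most `D` primes `p = 2 mod 3` divide `Δ` and satisfy `v_p(j) ≥ 0`. Then
`N(H^z) ≥ exp (c log z / (log log z)²)` for all real `z ≥ (log J)^C D^(C (log log D)²)`. -/
theorem result : ∃ c C : ℝ, 0 < c ∧ 0 < C ∧
    ∀ W : WeierstrassCurve ℤ, W.Δ ≠ 0 →
    (∀ Λ : PeriodPair,
      (W.c₄ : ℂ) ^ 3 * (Λ.g₂ ^ 3 - 27 * Λ.g₃ ^ 2) = 1728 * Λ.g₂ ^ 3 * (W.Δ : ℂ) →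
        ∀ α : ℂ, (∀ z ∈ Λ.lattice, α * z ∈ Λ.lattice) → ∃ k : ℤ, α = k) →
    ∀ N : ℝ → ℕ,
    (∀ x : ℝ, N x =
      ((Finset.range (⌊x⌋₊ + 1)).filter fun p : ℕ => p.Prime ∧ ¬ (p : ℤ) ∣ W.Δ ∧
        ((Finset.range p ×ˢ Finset.range p).filter (fun q : ℕ × ℕ =>
          (q.2 : ZMod p) ^ 2 + (W.a₁ : ZMod p) * (q.1 : ZMod p) * (q.2 : ZMod p)
            + (W.a₃ : ZMod p) * (q.2 : ZMod p)
          = (q.1 : ZMod p) ^ 3 + (W.a₂ : ZMod p) * (q.1 : ZMod p) ^ 2
            + (W.a₄ : ZMod p) * (q.1 : ZMod p) + (W.a₆ : ZMod p))).card = p).card) →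
    ∀ j : ℚ, j = (W.c₄ : ℚ) ^ 3 / (W.Δ : ℚ) →
    ∀ H J D : ℝ, 3 ≤ H → 3 ≤ J → 16 ≤ D → |(j.num : ℝ)| ≤ H → (j.den : ℝ) ≤ H →
      |(j : ℝ)| ≤ J → 1 / D ≤ |(j : ℝ) - 1728| →
      ((W.Δ.natAbs.primeFactors.filter fun p : ℕ => p % 3 = 2 ∧ 0 ≤ padicValRat p j).card : ℝ) ≤ D →
      ∀ z : ℝ, log J ^ C * D ^ (C * log (log D) ^ 2) ≤ z →
        exp (c * log z / log (log z) ^ 2) ≤ (N (H ^ z) : ℝ) := by
  obtain ⟨c, C, hc, hC, h⟩ := LT.u_main
  refine ⟨c, C, hc, hC, ?_⟩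
  rintro W hΔ hCM N hN j rfl H J D hH hJ hD hnum hden hjJ hjD hB z hz
  have hN' : N (H ^ z) = (LT.SS W ⌊H ^ z⌋₊).card := hN (H ^ z)
  rw [hN']
  rw [abs_sub_comm] at hjD
  exact h W hΔ hCM H J D hH hJ hD hnum hden hjJ hjD hB z hz

end Pool.Agent.Results.MP_f1937f_nt.UniformSupersingular
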